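import Pool.Agent.H14.AVR.Stmts

/-! # AVR, module KER: point halving -/

set_option autoImplicit false

namespace Pool.AVR

open Polynomial

section

variable {K : Type} [Field K]

theorem KER_degree (a b c : K) : (cub a b c).degree = 3 := by
  have h := Polynomial.degree_cubic (R := K) (a := 1) (b := a) (c := b) (d := c) one_ne_zero
  rw [C_1, one_mul] at h
  exact h

/-- A multiple of the cubic of degree at most two vanishes. -/
theorem KER_dvd {a b c e2 e1 e0 : K} (h : cub a b c ∣ C e2 * X ^ 2 + C e1 * X + C e0) :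
    e2 = 0 ∧ e1 = 0 ∧ e0 = 0 := by
  have h1 : C e2 * X ^ 2 + C e1 * X + C e0 = (0 : K[X]) := by
    refine Polynomial.eq_zero_of_dvd_of_degree_lt h ?_
    rw [KER_degree]
    exact Polynomial.degree_quadratic_lt
  have c2 := congrArg (fun p => p.coeff 2) h1
  have c1 := congrArg (fun p => p.coeff 1) h1
  have c0 := congrArg (fun p => p.coeff 0) h1
  simp [coeff_X, coeff_C] at c2 c1 c0
  exact ⟨c2, c1, c0⟩

/-- The cubic is `(X - x) (X + r)² + (s₁ X + s₀)²`. -/
theorem KER_decomp (a b c x : K) (h2 : (2 : K) ≠ 0) (u : K[X]) (hu : cub a b c ∣ C x - X - u ^ 2) :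
    ∃ r s1 s0 : K, a = -x + 2 * r + s1 ^ 2 ∧ b = r ^ 2 - 2 * x * r + 2 * s1 * s0 ∧
      c = -x * r ^ 2 + s0 ^ 2 := by
  have hmon : (cub a b c).Monic := by
    unfold cub
    monicity!
  set w := u %ₘ cub a b c with hw
  have hwd : w.degree < 3 := by
    rw [← KER_degree a b c]
    exact degree_modByMonic_lt _ hmon
  have huw : u = w + cub a b c * (u /ₘ cub a b c) := (modByMonic_add_div u (cub a b c)).symm
  have hw3 : w = C (w.coeff 2) * X ^ 2 + C (w.coeff 1) * X + C (w.coeff 0) := by
    have hn : w.natDegree < 3 := by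
      by_cases h0 : w = 0
      · rw [h0]; simp
      · rw [degree_eq_natDegree h0] at hwd
        exact_mod_cast hwd
    conv_lhs => rw [w.as_sum_range' 3 hn]
    simp only [Finset.sum_range_succ, Finset.sum_range_zero, ← C_mul_X_pow_eq_monomial]
    ring
  have hd : cub a b c ∣ C x - X - w ^ 2 := by
    have : C x - X - w ^ 2 = (C x - X - u ^ 2) + cub a b c * (u /ₘ cub a b c) * (u + w) := by
      have h3 : cub a b c * (u /ₘ cub a b c) = u - w := by
        rw [eq_sub_iff_add_eq, add_comm]; exact huw.symm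
      rw [h3]; ring
    rw [this]
    exact dvd_add hu (Dvd.dvd.mul_right (dvd_mul_right _ _) _)
  generalize w.coeff 2 = w2 at hw3
  generalize w.coeff 1 = w1 at hw3
  generalize w.coeff 0 = w0 at hw3
  have hw2 : w2 ≠ 0 := by
    rintro rfl
    have h4 : C x - X - w ^ 2 = C (-(w1 ^ 2)) * X ^ 2 + C (-1 - 2 * w1 * w0) * X + C (x - w0 ^ 2) := by
      rw [hw3]
      simp only [C_neg, C_sub, C_mul, C_pow, C_1, C_0]
      have : (C (2 : K) : K[X]) = 2 := map_ofNat C 2
      rw [this]
      ring
    rw [h4] at hd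
    obtain ⟨e2, e1, -⟩ := KER_dvd hd
    have hw1 : w1 = 0 := by simpa using e2
    rw [hw1] at e1
    simp at e1
  have hg : cub a b c ∣ (C x - X) * (X + C (a - w1 / w2)) ^ 2 -
      (C (w0 - w2 * b + (a - w1 / w2) * w1) * X + C ((a - w1 / w2) * w0 - w2 * c)) ^ 2 := by
    set r := a - w1 / w2 with hr
    have hrw : (X + C r) * w = C w2 * cub a b c +
        (C (w0 - w2 * b + r * w1) * X + C (r * w0 - w2 * c)) := by
      rw [hw3]
      unfold cub
      have h5 : w1 + r * w2 = w2 * a := by
        rw [hr]; field_simp; ring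
      have h6 : (C w1 + C r * C w2 : K[X]) = C w2 * C a := by
        rw [← C_mul, ← C_mul, ← C_add, h5]
      simp only [C_sub, C_mul, C_add]
      linear_combination X ^ 2 * h6
    have h7 : (C (w0 - w2 * b + r * w1) * X + C (r * w0 - w2 * c)) =
        (X + C r) * w - C w2 * cub a b c := by
      rw [hrw]; ring
    rw [h7]
    have h8 : (C x - X) * (X + C r) ^ 2 - ((X + C r) * w - C w2 * cub a b c) ^ 2 =
        (C x - X - w ^ 2) * (X + C r) ^ 2 +
          cub a b c * (C w2 * (2 * (X + C r) * w - C w2 * cub a b c)) := by ring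
    rw [h8]
    exact dvd_add (Dvd.dvd.mul_right hd _) (dvd_mul_right _ _)
  generalize a - w1 / w2 = r at hg
  generalize w0 - w2 * b + r * w1 = s1 at hg
  generalize r * w0 - w2 * c = s0 at hg
  have h9 := dvd_add hg (dvd_refl (cub a b c))
  have h10 : (C x - X) * (X + C r) ^ 2 - (C s1 * X + C s0) ^ 2 + cub a b c =
      C (x - 2 * r - s1 ^ 2 + a) * X ^ 2 + C (2 * x * r - r ^ 2 - 2 * s1 * s0 + b) * X +
        C (x * r ^ 2 - s0 ^ 2 + c) := by
    unfold cub
    have : (C (2 : K) : K[X]) = 2 := map_ofNat C 2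
    simp only [C_sub, C_mul, C_add, C_pow, this]
    ring
  rw [h10] at h9
  obtain ⟨e2, e1, e0⟩ := KER_dvd h9
  exact ⟨r, s1, s0, by linear_combination e2, by linear_combination e1, by linear_combination e0⟩

end

theorem KER_thm : KERStmt := by
  intro K _ _ h2 a b c hsep x y h u hu
  obtain ⟨r, s1', s0', ha, hb, hc⟩ := KER_decomp a b c x h2 u hu
  -- the equation of the curve
  have hy : y ^ 2 = x ^ 3 + a * x ^ 2 + b * x + c := by
    have := h.1
    rw [WeierstrassCurve.Affine.equation_iff] at this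
    simp [E] at this
    linear_combination this
  have hys : y ^ 2 = (s1' * x + s0') ^ 2 := by
    rw [hy, ha, hb, hc]; ring
  obtain ⟨s1, s0, ha, hb, hc, hys⟩ : ∃ s1 s0 : K, a = -x + 2 * r + s1 ^ 2 ∧
      b = r ^ 2 - 2 * x * r + 2 * s1 * s0 ∧ c = -x * r ^ 2 + s0 ^ 2 ∧ y = -(s1 * x + s0) := by
    rcases sq_eq_sq_iff_eq_or_eq_neg.mp hys with h3 | h3
    · exact ⟨-s1', -s0', by rw [ha]; ring, by rw [hb]; ring, by rw [hc]; ring, by rw [h3]; ring⟩
    · exact ⟨s1', s0', ha, hb, hc, h3⟩
  have ht : s0 - s1 * r ≠ 0 := by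
    intro h0
    have h3 : cub a b c = (X + C r) * (X + C r) * (X - C x + C (s1 ^ 2)) := by
      have h4 : s0 = s1 * r := by linear_combination h0
      unfold cub
      rw [ha, hb, hc, h4]
      have : (C (2 : K) : K[X]) = 2 := map_ofNat C 2
      simp only [C_sub, C_mul, C_add, C_pow, C_neg, this]
      ring
    rw [h3] at hsep
    have h5 := hsep.of_mul_left.isCoprime
    have h6 : IsUnit (X + C r : K[X]) := isCoprime_self.mp h5
    have h7 := Polynomial.degree_eq_zero_of_isUnit h6
    rw [degree_X_add_C] at h7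
    exact one_ne_zero h7
  have hQ : (E a b c).toAffine.Nonsingular (-r) (s0 - s1 * r) := by
    rw [WeierstrassCurve.Affine.nonsingular_iff]
    refine ⟨?_, Or.inr ?_⟩
    · rw [WeierstrassCurve.Affine.equation_iff]
      simp only [E]
      rw [ha, hb, hc]
      ring
    · simp only [E]
      intro h3
      apply ht
      have : (2 : K) * (s0 - s1 * r) = 0 := by linear_combination h3
      exact (mul_eq_zero.mp this).resolve_left h2
  have hne : s0 - s1 * r ≠ (E a b c).toAffine.negY (-r) (s0 - s1 * r) := by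
    intro h3
    simp only [WeierstrassCurve.Affine.negY, E] at h3
    apply ht
    have : (2 : K) * (s0 - s1 * r) = 0 := by linear_combination h3
    exact (mul_eq_zero.mp this).resolve_left h2
  have hsl : (E a b c).toAffine.slope (-r) (-r) (s0 - s1 * r) (s0 - s1 * r) = s1 := by
    rw [WeierstrassCurve.Affine.slope_of_Y_ne rfl hne]
    have h4 : (s0 - s1 * r) - (E a b c).toAffine.negY (-r) (s0 - s1 * r) = 2 * (s0 - s1 * r) := by
      simp only [WeierstrassCurve.Affine.negY, E]
      ring
    rw [h4, div_eq_iff (mul_ne_zero h2 ht)]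
    simp only [E]
    rw [ha, hb]
    ring
  refine ⟨WeierstrassCurve.Affine.Point.some _ _ hQ, ?_⟩
  rw [WeierstrassCurve.Affine.Point.add_self_of_Y_ne hne]
  have hX : x = (E a b c).toAffine.addX (-r) (-r)
      ((E a b c).toAffine.slope (-r) (-r) (s0 - s1 * r) (s0 - s1 * r)) := by
    rw [hsl]
    simp only [WeierstrassCurve.Affine.addX, E]
    rw [ha]
    ring
  have hY : y = (E a b c).toAffine.addY (-r) (-r) (s0 - s1 * r)
      ((E a b c).toAffine.slope (-r) (-r) (s0 - s1 * r) (s0 - s1 * r)) := by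
    rw [WeierstrassCurve.Affine.addY, WeierstrassCurve.Affine.negAddY, ← hX, hsl]
    simp only [WeierstrassCurve.Affine.negY, E]
    rw [hys]
    ring
  simp only [WeierstrassCurve.Affine.Point.some.injEq]
  exact ⟨hX, hY⟩

end Pool.AVR
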